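import Pool.Agent.Lib.MP_3a0c72_gt.Nest.Main

set_option autoImplicit false

namespace Pool.Agent.Results.MP_3a0c72_gt.Nested

/-- An arc is the image of the unit interval under a continuous one-to-one map. -/
def IsArc {K : Type} [TopologicalSpace K] (A : Set K) : Prop :=
  ∃ γ : unitInterval → K, Continuous γ ∧ Function.Injective γ ∧ Set.range γ = A

/-- If every increasing sequence of arcs of `K` lies in an arc, the fixed-point property passes
from `K` to the product of `K` with the unit interval. -/
theorem result (K : Type) [MetricSpace K] [TopologicalSpace.SeparableSpace K]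
    (hY : ∀ A : ℕ → Set K, (∀ n, IsArc (A n)) → Monotone A → ∃ B, IsArc B ∧ ∀ n, A n ⊆ B)
    (hK : ∀ f : K → K, Continuous f → ∃ x, f x = x) :
    ∀ g : K × unitInterval → K × unitInterval, Continuous g → ∃ p, g p = p :=
  fun _ hg => Pool.Agent.Lib.MP_3a0c72_gt.Nest.main2 hY hK hg

end Pool.Agent.Results.MP_3a0c72_gt.Nested
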