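import Pool.Agent.Lib.MP_3a0c72_gt.Bing.Dim

open Pool.Agent.Lib.MP_3a0c72_gt.Bing in
theorem Pool.Agent.Results.MP_3a0c72_gt.PlanarCounterexample.result :
    ∃ K : Set (EuclideanSpace ℝ (Fin 2)), IsCompact K ∧ IsConnected K ∧
      (∀ f : K → K, Continuous f → ∃ x, f x = x) ∧
      (∃ g : K × unitInterval → K × unitInterval, Continuous g ∧ ∀ p, g p ≠ p) ∧
      (∀ (n : ℕ) (U : Fin n → Set K), (∀ i, IsOpen (U i)) → (⋃ i, U i) = Set.univ →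
        ∃ (m : ℕ) (V : Fin m → Set K), (∀ j, IsOpen (V j)) ∧ (⋃ j, V j) = Set.univ ∧
          (∀ j, ∃ i, V j ⊆ U i) ∧
          ∀ (x : K) (a b c : Fin m), x ∈ V a → x ∈ V b → x ∈ V c → a = b ∨ a = c ∨ b = c) ∧
      ¬ ∀ (n : ℕ) (U : Fin n → Set K), (∀ i, IsOpen (U i)) → (⋃ i, U i) = Set.univ →
        ∃ (m : ℕ) (V : Fin m → Set K), (∀ j, IsOpen (V j)) ∧ (⋃ j, V j) = Set.univ ∧
          (∀ j, ∃ i, V j ⊆ U i) ∧
          ∀ (x : K) (a b : Fin m), x ∈ V a → x ∈ V b → a = b := by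
  obtain ⟨K, h1, h2, h3, h4, h5, x, y, hxy⟩ := plane_curve
  have : PreconnectedSpace K := isPreconnected_iff_preconnectedSpace.1 h2.isPreconnected
  exact ⟨K, h1, h2, h3, h4, dim_le_one h1 h5, not_dim_zero hxy⟩
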